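import Mathlib
import Pool.Agent.V11266.BPValue

/-!
# Block parallel addition on a binary alphabet

`KBlockParallel β A k` is `k`-block parallel addition on `A` in base `β`, exactly as in the
problem.  The base is the plastic number, the real root of `X ^ 3 = X + 1`; blocks have length
`9`.
-/

namespace Pool.Agent.Results.MP_8e4c55_nt.PlasticBinaryBlock

open Function V11266.BlockPar
open scoped Pointwise

/-- `φ : D^ℤ → E^ℤ` is *`p`-local*: there are `r, t ≥ 0` with `p = r + t + 1` and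
`Φ : D^p → E` such that `φ(u)_j = Φ(u_{j+t}, …, u_{j-r})` for all `u` and all `j`. -/
def IsPLocal {D E : Set ℂ} (p : ℕ) (φ : (ℤ → D) → (ℤ → E)) : Prop :=
  ∃ r t : ℕ, p = r + t + 1 ∧ ∃ Φ : (Fin p → D) → E,
    ∀ (u : ℤ → D) (j : ℤ), φ u j = Φ (fun i => u (j + (t : ℤ) - ((i : ℕ) : ℤ)))

/-- Finitely supported digit strings. -/
def FinSupp {D : Set ℂ} (u : ℤ → D) : Prop := {j : ℤ | (u j : ℂ) ≠ 0}.Finite

/-- The value `∑_j u_j β^j` (used for finitely supported `u`). -/
noncomputable def value (β : ℂ) {D : Set ℂ} (u : ℤ → D) : ℂ := ∑ᶠ j : ℤ, (u j : ℂ) * β ^ j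

/-- A *digit set conversion in base `β` from `D` to `E`*. -/
def IsDigitSetConversion (β : ℂ) {D E : Set ℂ} (φ : (ℤ → D) → (ℤ → E)) : Prop :=
  ∀ u, FinSupp u → FinSupp (φ u) ∧ value β (φ u) = value β u

/-- `A_(k) = {a_0 + a_1 β + ⋯ + a_{k-1} β^{k-1} : a_i ∈ A}`. -/
def blockDigits (β : ℂ) (A : Set ℤ) (k : ℕ) : Set ℂ :=
  {z | ∃ a : Fin k → ℤ, (∀ i, a i ∈ A) ∧ z = ∑ i, (a i : ℂ) * β ^ (i : ℕ)}

/-- Addition on `A` is *`k`-block parallel in base `β`*. -/
def KBlockParallel (β : ℂ) (A : Set ℤ) (k : ℕ) : Prop :=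
  ∃ φ : (ℤ → ↥(blockDigits β A k + blockDigits β A k)) → (ℤ → ↥(blockDigits β A k)),
    IsDigitSetConversion (β ^ k) φ ∧ ∃ p : ℕ, IsPLocal p φ

attribute [local irreducible] add

/-- The position in the window `(18, 17, …, -18)` of the integer `j`. -/
def cl (j : ℤ) : Fin 37 := ⟨(min 36 (max 0 (18 - j))).toNat, by omega⟩

/-- The general construction, for an alphabet `{0, s}`. -/
theorem main {β : ℂ} (hβ : β ^ 3 = β + 1) (s : ℂ) (A : Set ℤ)
    (hA : ∀ z, z ∈ blockDigits β A 9 ↔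
      ∃ x : ℕ → Bool, z = s * ∑ i ∈ Finset.range 9, bc (x i) * β ^ i) :
    KBlockParallel β A 9 := by
  have h0 : β ≠ 0 := by
    rintro rfl
    norm_num at hβ
  -- decomposition of a digit
  have hdec : ∀ d : ↥(blockDigits β A 9 + blockDigits β A 9), ∃ p : (ℕ → Bool) × (ℕ → Bool),
      (d : ℂ) = s * (∑ i ∈ Finset.range 9, bc (p.1 i) * β ^ i
        + ∑ i ∈ Finset.range 9, bc (p.2 i) * β ^ i) ∧
      ((d : ℂ) = 0 → p = (fun _ => false, fun _ => false)) := by
    rintro ⟨d, hd⟩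
    by_cases hd0 : d = 0
    · refine ⟨(fun _ => false, fun _ => false), ?_, fun _ => rfl⟩
      simp [bc_false, hd0]
    · obtain ⟨a, ha, b, hb, hab⟩ := Set.mem_add.1 hd
      obtain ⟨x, hx⟩ := (hA a).1 ha
      obtain ⟨y, hy⟩ := (hA b).1 hb
      refine ⟨(x, y), ?_, fun h => absurd h hd0⟩
      show d = _
      rw [← hab, hx, hy]; ring
  choose dec hdec1 hdec2 using hdec
  set X : (ℤ → ↥(blockDigits β A 9 + blockDigits β A 9)) → ℤ → Bool :=
    fun u n => (dec (u (n / 9))).1 (n % 9).toNat with hX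
  set Y : (ℤ → ↥(blockDigits β A 9 + blockDigits β A 9)) → ℤ → Bool :=
    fun u n => (dec (u (n / 9))).2 (n % 9).toNat with hY
  obtain ⟨φ, hφ⟩ : ∃ φ : (ℤ → ↥(blockDigits β A 9 + blockDigits β A 9)) →
      (ℤ → ↥(blockDigits β A 9)), ∀ u j, ((φ u j : ↥(blockDigits β A 9)) : ℂ)
      = s * ∑ i ∈ Finset.range 9, bc (add (X u) (Y u) 9 (9 * j + i)) * β ^ i :=
    ⟨fun u j => ⟨s * ∑ i ∈ Finset.range 9, bc (add (X u) (Y u) 9 (9 * j + i)) * β ^ i,
      (hA _).2 ⟨fun i => add (X u) (Y u) 9 (9 * j + i), rfl⟩⟩, fun u j => rfl⟩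
  refine ⟨φ, ?_, 37, 18, 18, rfl, ?_⟩
  · intro u hu
    -- bounds
    obtain ⟨N, hN⟩ : ∃ N : ℕ, ∀ j : ℤ, (j < -N ∨ N < j) → (u j : ℂ) = 0 := by
      obtain ⟨a, ha⟩ := hu.bddAbove
      obtain ⟨b, hb⟩ := hu.bddBelow
      refine ⟨a.natAbs + b.natAbs, fun j hj => ?_⟩
      by_contra hc
      have h1 : j ≤ a := ha hc
      have h2 : b ≤ j := hb hc
      have h3 : ((a.natAbs + b.natAbs : ℕ) : ℤ) = (a.natAbs : ℤ) + (b.natAbs : ℤ) := by
        push_cast; rfl
      rw [h3] at hj
      omega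
    have hXB : BS (X u) (9 * N + 9) := by
      intro n hn
      simp only [hX]
      rw [hdec2 _ (hN _ (by push_cast at hn; omega))]
    have hYB : BS (Y u) (9 * N + 9) := by
      intro n hn
      simp only [hY]
      rw [hdec2 _ (hN _ (by push_cast at hn; omega))]
    have hZB := add_BS hXB hYB 9
    constructor
    · refine finite_of_bound (fun j => ((φ u j : ↥(blockDigits β A 9)) : ℂ))
        ((9 * N + 9 + 18 * 9 : ℕ) : ℤ) fun j hj => ?_
      rw [hφ]
      rw [Finset.sum_eq_zero, mul_zero]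
      intro i hi
      have := Finset.mem_range.1 hi
      rw [hZB _ (by push_cast at hj ⊢; omega), bc_false, zero_mul]
    · have e1 : value (β ^ 9) (φ u) = s * V β (add (X u) (Y u) 9) := by
        rw [← V_blocks h0 hZB s]
        unfold value
        exact finsum_congr fun j => by rw [hφ]
      have e2 : ∀ j : ℤ, (u j : ℂ) * (β ^ 9) ^ j
          = (s * ∑ i ∈ Finset.range 9, bc (X u (9 * j + i)) * β ^ i) * (β ^ 9) ^ j
            + (s * ∑ i ∈ Finset.range 9, bc (Y u (9 * j + i)) * β ^ i) * (β ^ 9) ^ j := by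
        intro j
        have hXj : ∑ i ∈ Finset.range 9, bc (X u (9 * j + i)) * β ^ i
            = ∑ i ∈ Finset.range 9, bc ((dec (u j)).1 i) * β ^ i := by
          refine Finset.sum_congr rfl fun i hi => ?_
          have hi := Finset.mem_range.1 hi
          have h1 : (9 * j + (i : ℤ)) / 9 = j := by omega
          have h2 : ((9 * j + (i : ℤ)) % 9).toNat = i := by omega
          simp only [hX, h1, h2]
        have hYj : ∑ i ∈ Finset.range 9, bc (Y u (9 * j + i)) * β ^ i
            = ∑ i ∈ Finset.range 9, bc ((dec (u j)).2 i) * β ^ i := by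
          refine Finset.sum_congr rfl fun i hi => ?_
          have hi := Finset.mem_range.1 hi
          have h1 : (9 * j + (i : ℤ)) / 9 = j := by omega
          have h2 : ((9 * j + (i : ℤ)) % 9).toNat = i := by omega
          simp only [hY, h1, h2]
        rw [hXj, hYj, hdec1 (u j)]
        ring
      have e3 : value (β ^ 9) u = s * V β (X u) + s * V β (Y u) := by
        rw [← V_blocks h0 hXB s, ← V_blocks h0 hYB s]
        unfold value
        rw [finsum_congr e2, finsum_add_distrib]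
        · exact finite_of_bound _ ((9 * N + 20 : ℕ) : ℤ) fun j hj => by
            rw [Finset.sum_eq_zero, mul_zero, zero_mul]
            intro i hi
            have := Finset.mem_range.1 hi
            rw [hXB _ (by push_cast at hj ⊢; omega), bc_false, zero_mul]
        · exact finite_of_bound _ ((9 * N + 20 : ℕ) : ℤ) fun j hj => by
            rw [Finset.sum_eq_zero, mul_zero, zero_mul]
            intro i hi
            have := Finset.mem_range.1 hi
            rw [hYB _ (by push_cast at hj ⊢; omega), bc_false, zero_mul]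
      rw [e1, e3, V_add9 hβ h0 hXB hYB]
      ring
  · -- locality
    refine ⟨fun d => φ (fun j => d (cl j)) 0, ?_⟩
    intro u j
    show φ u j = φ (fun j' => u (j + ((18 : ℕ) : ℤ) - ((cl j' : ℕ) : ℤ))) 0
    apply Subtype.ext
    rw [hφ u j, hφ _ 0]
    refine congrArg (fun z => s * z) (Finset.sum_congr rfl fun i hi => ?_)
    have hi := Finset.mem_range.1 hi
    have h1 : add (X u) (Y u) 9 (9 * j + i)
        = add (fun m => X u (m + 9 * j)) (fun m => Y u (m + 9 * j)) 9 (9 * 0 + (i : ℤ)) := by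
      rw [add_shift]
      have : 9 * j + (i : ℤ) = 9 * 0 + (i : ℤ) + 9 * j := by ring
      rw [this]
    rw [h1]
    have hwin : ∀ m : ℤ, 9 * 0 + (i : ℤ) - 18 * ((9 : ℕ) : ℤ) ≤ m →
        m ≤ 9 * 0 + (i : ℤ) + 18 * ((9 : ℕ) : ℤ) →
        (m + 9 * j) / 9 = j + ((18 : ℕ) : ℤ) - ((cl (m / 9) : ℕ) : ℤ) := by
      intro m h1 h2
      unfold cl
      push_cast at h1 h2 ⊢
      omega
    have hmod : ∀ m : ℤ, (m + 9 * j) % 9 = m % 9 := fun m => by omega
    have h2 : add (fun m => X u (m + 9 * j)) (fun m => Y u (m + 9 * j)) 9 (9 * 0 + (i : ℤ))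
        = add (X (fun j' => u (j + ((18 : ℕ) : ℤ) - ((cl j' : ℕ) : ℤ))))
            (Y (fun j' => u (j + ((18 : ℕ) : ℤ) - ((cl j' : ℕ) : ℤ)))) 9 (9 * 0 + (i : ℤ)) := by
      refine add_local _ _ _ _ 9 _ ?_ ?_
      · intro m h1 h2
        simp only [hX]
        rw [hwin m h1 h2, hmod]
      · intro m h1 h2
        simp only [hY]
        rw [hwin m h1 h2, hmod]
    rw [h2]

/-- Digits of the blocks over `{0, 1}`. -/
theorem mem_blockDigits_pos (β z : ℂ) : z ∈ blockDigits β (Set.Icc 0 1) 9 ↔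
    ∃ x : ℕ → Bool, z = 1 * ∑ i ∈ Finset.range 9, bc (x i) * β ^ i := by
  constructor
  · rintro ⟨a, ha, rfl⟩
    refine ⟨fun i => if h : i < 9 then decide (a ⟨i, h⟩ = 1) else false, ?_⟩
    rw [one_mul, ← Fin.sum_univ_eq_sum_range
      (fun i => bc (if h : i < 9 then decide (a ⟨i, h⟩ = 1) else false) * β ^ i) 9]
    refine Finset.sum_congr rfl fun i _ => ?_
    have h1 := ha i
    rw [Set.mem_Icc] at h1
    have h2 : a i = 0 ∨ a i = 1 := by omega
    rcases h2 with h2 | h2 <;> simp [bc, h2]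
  · rintro ⟨x, rfl⟩
    refine ⟨fun i => if x i then 1 else 0, ?_, ?_⟩
    · intro i
      dsimp only
      split_ifs <;> simp
    · rw [one_mul, ← Fin.sum_univ_eq_sum_range (fun i => bc (x i) * β ^ i) 9]
      refine Finset.sum_congr rfl fun i _ => ?_
      cases h : x i <;> simp [bc, h]

/-- Digits of the blocks over `{-1, 0}`. -/
theorem mem_blockDigits_neg (β z : ℂ) : z ∈ blockDigits β (Set.Icc (-1) 0) 9 ↔
    ∃ x : ℕ → Bool, z = (-1) * ∑ i ∈ Finset.range 9, bc (x i) * β ^ i := by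
  constructor
  · rintro ⟨a, ha, rfl⟩
    refine ⟨fun i => if h : i < 9 then decide (a ⟨i, h⟩ = -1) else false, ?_⟩
    rw [← Fin.sum_univ_eq_sum_range
      (fun i => bc (if h : i < 9 then decide (a ⟨i, h⟩ = -1) else false) * β ^ i) 9,
      Finset.mul_sum]
    refine Finset.sum_congr rfl fun i _ => ?_
    have h1 := ha i
    rw [Set.mem_Icc] at h1
    have h2 : a i = 0 ∨ a i = -1 := by omega
    rcases h2 with h2 | h2 <;> simp [bc, h2]
  · rintro ⟨x, rfl⟩
    refine ⟨fun i => if x i then -1 else 0, ?_, ?_⟩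
    · intro i
      dsimp only
      split_ifs <;> simp
    · rw [← Fin.sum_univ_eq_sum_range (fun i => bc (x i) * β ^ i) 9, Finset.mul_sum]
      refine Finset.sum_congr rfl fun i _ => ?_
      cases h : x i <;> simp [bc, h]

theorem exists_plastic : ∃ β : ℝ, 1 < β ∧ β ^ 3 = β + 1 := by
  have hc : ContinuousOn (fun x : ℝ => x ^ 3 - x - 1) (Set.Icc 1 2) := by fun_prop
  have h := intermediate_value_Icc (by norm_num : (1 : ℝ) ≤ 2) hc
  obtain ⟨β, hβ, h0⟩ := h (show (0 : ℝ) ∈ Set.Icc _ _ by constructor <;> norm_num)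
  simp only at h0
  refine ⟨β, lt_of_le_of_ne hβ.1 ?_, by linarith⟩
  rintro rfl
  norm_num at h0

theorem set_pos : ({0, 1} : Set ℤ) = Set.Icc 0 1 := by
  ext z
  simp only [Set.mem_insert_iff, Set.mem_singleton_iff, Set.mem_Icc]
  omega

theorem set_neg : ({-1, 0} : Set ℤ) = Set.Icc (-1) 0 := by
  ext z
  simp only [Set.mem_insert_iff, Set.mem_singleton_iff, Set.mem_Icc]
  omega

/-- **Block parallel addition on a binary alphabet exists.**

In the base `β = 1.3247…` (the plastic number, `β ^ 3 = β + 1`), addition is `9`-block parallel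
on the binary alphabet `{0, 1}`, and also on the other binary alphabet `{-1, 0}`. -/
theorem result : ∃ β : ℂ, 1 < ‖β‖ ∧ β ^ 3 = β + 1 ∧
    KBlockParallel β {0, 1} 9 ∧ KBlockParallel β {-1, 0} 9 := by
  obtain ⟨β, h1, hβ⟩ := exists_plastic
  have hc : (β : ℂ) ^ 3 = (β : ℂ) + 1 := by
    exact_mod_cast congrArg (fun x : ℝ => (x : ℂ)) hβ
  refine ⟨(β : ℂ), ?_, hc, ?_, ?_⟩
  · rw [Complex.norm_real, Real.norm_eq_abs, abs_of_pos (by linarith)]
    exact h1
  · rw [set_pos]
    exact main hc 1 _ (mem_blockDigits_pos _)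
  · rw [set_neg]
    exact main hc (-1) _ (mem_blockDigits_neg _)

end Pool.Agent.Results.MP_8e4c55_nt.PlasticBinaryBlock
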